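import Pool.Agent.Q88.ThreeCol.Orb
import Mathlib.GroupTheory.Solvable
import Mathlib.Algebra.Group.Commutator
import Mathlib.GroupTheory.PGroup
import Mathlib.GroupTheory.Perm.Cycle.Type
import Mathlib.Algebra.BigOperators.Group.Finset.Basic

/-! # Three-colourings of solvable permutation groups leaving a 2-group -/

namespace Pool.Agent.Results.MP_2fb0b3_al.ThreeColouring

open Pool.Agent.Q88.ThreeCol

open scoped commutatorElement

theorem exists_elem_normal (P : Type) [Group P] [Finite P] [Group.IsSolvable P] [Nontrivial P] :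
    ∃ p : ℕ, p.Prime ∧ ∃ A : Subgroup P, A.Normal ∧ A ≠ ⊥ ∧ (∀ a ∈ A, a ^ p = 1) ∧
      ∀ a ∈ A, ∀ b ∈ A, a * b = b * a := by
  classical
  have hex : ∃ n, derivedSeries P n = ⊥ := (Group.isSolvable_def P).mp inferInstance
  obtain ⟨m, hm⟩ : ∃ m, Nat.find hex = m + 1 := by
    rcases h : Nat.find hex with _ | m
    · exfalso
      have h1 := Nat.find_spec hex
      rw [h, derivedSeries_zero] at h1
      exact top_ne_bot h1
    · exact ⟨m, rfl⟩
  have hD : derivedSeries P m ≠ ⊥ := Nat.find_min hex (by omega)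
  have hD' : derivedSeries P (m + 1) = ⊥ := by rw [← hm]; exact Nat.find_spec hex
  obtain ⟨D, hDdef⟩ : ∃ D, D = derivedSeries P m := ⟨_, rfl⟩
  have hDn : D.Normal := by rw [hDdef]; infer_instance
  rw [derivedSeries_succ, ← hDdef] at hD'
  rw [← hDdef] at hD
  have hcomm : ∀ a ∈ D, ∀ b ∈ D, a * b = b * a := by
    intro a ha b hb
    have h1 : ⁅a, b⁆ ∈ ⁅D, D⁆ := Subgroup.commutator_mem_commutator ha hb
    rw [hD', Subgroup.mem_bot, commutatorElement_eq_one_iff_mul_comm] at h1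
    exact h1
  have hDcard : Nat.card D ≠ 1 := by
    intro h
    exact hD (Subgroup.card_eq_one.mp h)
  obtain ⟨p, hp, hpD⟩ := Nat.exists_prime_and_dvd hDcard
  have : Fact p.Prime := ⟨hp⟩
  obtain ⟨x, hx⟩ := exists_prime_orderOf_dvd_card' p hpD
  have hpow : ∀ a ∈ D, ∀ b ∈ D, (a * b) ^ p = a ^ p * b ^ p := by
    intro a ha b hb
    exact (show Commute a b from hcomm a ha b hb).mul_pow p
  let A : Subgroup P :=
    { carrier := {a | a ∈ D ∧ a ^ p = 1}
      mul_mem' := by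
        rintro a b ⟨ha, ha'⟩ ⟨hb, hb'⟩
        exact ⟨D.mul_mem ha hb, by rw [hpow a ha b hb, ha', hb', one_mul]⟩
      one_mem' := ⟨D.one_mem, one_pow p⟩
      inv_mem' := by
        rintro a ⟨ha, ha'⟩
        exact ⟨D.inv_mem ha, by rw [inv_pow, ha', inv_one]⟩ }
  refine ⟨p, hp, A, ⟨?_⟩, ?_, fun a ha => ha.2, fun a ha b hb => hcomm a ha.1 b hb.1⟩
  · rintro a ⟨ha, ha'⟩ g
    refine ⟨hDn.conj_mem a ha g, ?_⟩
    rw [conj_pow, ha', mul_one, mul_inv_cancel]
  · intro h
    have h1 : (x : P) ∈ A := by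
      refine ⟨x.2, ?_⟩
      rw [← Subgroup.coe_pow, ← hx, pow_orderOf_eq_one]
      rfl
    rw [h, Subgroup.mem_bot] at h1
    have h2 : x = 1 := Subtype.ext h1
    rw [h2, orderOf_one] at hx
    exact hp.one_lt.ne hx

/-- The action on the orbits of a normal subgroup. -/
@[instance_reducible] def quotAct {P Ω : Type} [Group P] [MulAction P Ω] (A : Subgroup P) (hA : A.Normal) :
    MulAction P (MulAction.orbitRel.Quotient A Ω) where
  smul g := Quotient.map' (g • ·) (by
    rintro a b ⟨x, hx⟩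
    refine ⟨⟨g * x * g⁻¹, hA.conj_mem _ x.2 g⟩, ?_⟩
    change (g * x * g⁻¹) • g • b = g • a
    rw [smul_smul, inv_mul_cancel_right, mul_smul]
    exact congrArg (g • ·) hx)
  one_smul := by
    intro y
    induction y using Quotient.inductionOn'
    exact congrArg Quotient.mk'' (one_smul P _)
  mul_smul := by
    intro g h y
    induction y using Quotient.inductionOn'
    exact congrArg Quotient.mk'' (mul_smul g h _)

theorem rot (p : ℕ) (hp : p.Prime) (N : ℕ → ZMod 3 → ℕ) (h0 : ∀ n, N n 0 = 1)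
    (h3 : ∀ n, p ^ n = 3 → N n 2 = 0) (hs : ∀ n, N n 0 + N n 1 + N n 2 = p ^ n)
    (n n' : ℕ) (d : ZMod 3) (h : ∀ i, N n i = N n' (i + d)) : d = 0 := by
  have hnn : n = n' := by
    have h1 : p ^ n = p ^ n' := by
      rw [← hs n, ← hs n', h 0, h 1, h 2]
      have h2 : ∀ e : ZMod 3, N n' (0 + e) + N n' (1 + e) + N n' (2 + e) =
          N n' 0 + N n' 1 + N n' 2 := by
        intro e
        have h3 : ∀ e : ZMod 3, e = 0 ∨ e = 1 ∨ e = 2 := by decide
        rcases h3 e with rfl | rfl | rfl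
        · simp only [add_zero]
        · rw [show (0 : ZMod 3) + 1 = 1 by decide, show (1 : ZMod 3) + 1 = 2 by decide,
            show (2 : ZMod 3) + 1 = 0 by decide]
          omega
        · rw [show (0 : ZMod 3) + 2 = 2 by decide, show (1 : ZMod 3) + 2 = 0 by decide,
            show (2 : ZMod 3) + 2 = 1 by decide]
          omega
      exact h2 d
    exact Nat.pow_right_injective hp.two_le h1
  subst hnn
  have h4 : ∀ e : ZMod 3, e = 0 ∨ e = 1 ∨ e = 2 := by decide
  rcases h4 d with rfl | rfl | rfl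
  · rfl
  · exfalso
    have h5 := h 0
    have h6 := h 1
    have h7 := hs n
    rw [show (0 : ZMod 3) + 1 = 1 by decide] at h5
    rw [show (1 : ZMod 3) + 1 = 2 by decide] at h6
    have h8 := h0 n
    have h9 := h3 n (by omega)
    omega
  · exfalso
    have h5 := h 0
    have h6 := h 2
    have h7 := hs n
    rw [show (0 : ZMod 3) + 2 = 2 by decide] at h5
    rw [show (2 : ZMod 3) + 2 = 1 by decide] at h6
    have h8 := h0 n
    have h9 := h3 n (by omega)
    omega

theorem step (P Ω : Type) [Group P] [Finite P] [Group.IsSolvable P] [MulAction P Ω] [FaithfulSMul P Ω]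
    [Finite Ω] [Nontrivial P]
    (ih : ∀ (Y : Type) [MulAction P Y] [Finite Y], Nat.card Y < Nat.card Ω →
      ∃ γ : Y → ZMod 3, ∀ g : P, (∀ y : Y, γ (g • y) = γ y) →
        ∃ k : ℕ, ∀ y : Y, g ^ (2 ^ k) • y = y) :
    ∃ γ : Ω → ZMod 3, ∀ g : P, (∀ ω : Ω, γ (g • ω) = γ ω) →
      ∃ k : ℕ, ∀ ω : Ω, g ^ (2 ^ k) • ω = ω := by
  classical
  obtain ⟨p, hp, A, hAn, hAbot, hAp, hAc⟩ := exists_elem_normal P
  have : Fact p.Prime := ⟨hp⟩
  let _ : CommGroup A := { (inferInstance : Group A) with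
    mul_comm := fun a b => Subtype.ext (hAc a a.2 b b.2) }
  let Y := MulAction.orbitRel.Quotient A Ω
  let _ : MulAction P Y := quotAct A hAn
  have hmk : ∀ (g : P) (ω : Ω), g • (Quotient.mk'' ω : Y) = Quotient.mk'' (g • ω) :=
    fun g ω => rfl
  have hY : Nat.card Y < Nat.card Ω := by
    have hsurj : Function.Surjective (Quotient.mk'' : Ω → Y) := Quotient.mk''_surjective
    rcases lt_or_eq_of_le (Nat.card_le_card_of_surjective _ hsurj) with h | h
    · exact h
    · exfalso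
      have hbij : Function.Bijective (Quotient.mk'' : Ω → Y) :=
        hsurj.bijective_of_nat_card_le h.ge
      apply hAbot
      rw [Subgroup.eq_bot_iff_forall]
      intro a ha
      apply FaithfulSMul.eq_of_smul_eq_smul (α := Ω)
      intro ω
      rw [one_smul]
      apply hbij.1
      exact Quotient.sound' ⟨⟨a, ha⟩, rfl⟩
  obtain ⟨γ', hγ'⟩ := ih Y hY
  obtain ⟨N, hN0, hN3, hNs, hN⟩ := orbCol p
  have hV : ∀ v : A, v ^ p = 1 := fun v => Subtype.ext (hAp v v.2)
  have hne : ∀ y : Y, Nonempty y.orbit := fun y => (MulAction.orbitRel.Quotient.nonempty_orbit y).to_subtype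
  choose n c hc1 hc2 using fun y : Y => hN A y.orbit hV
  have hmem : ∀ ω : Ω, ω ∈ MulAction.orbitRel.Quotient.orbit (Quotient.mk'' ω : Y) :=
    fun ω => MulAction.orbitRel.Quotient.mem_orbit.mpr rfl
  obtain ⟨γ, hγdef⟩ : ∃ γ : Ω → ZMod 3, ∀ ω, γ ω =
    c (Quotient.mk'' ω) ⟨ω, hmem ω⟩ + γ' (Quotient.mk'' ω) := ⟨_, fun ω => rfl⟩
  have hγ : ∀ (y : Y) (x : y.orbit), γ x = c y x + γ' y := by
    intro y x
    obtain ⟨x, hx⟩ := x
    have h1 := MulAction.orbitRel.Quotient.mem_orbit.mp hx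
    subst h1
    exact hγdef x
  have hmove : ∀ (g : P) (y : Y) (x : y.orbit), g • (x : Ω) ∈ (g • y).orbit := by
    intro g y x
    rw [MulAction.orbitRel.Quotient.mem_orbit, ← hmk,
      MulAction.orbitRel.Quotient.mem_orbit.mp x.2]
  refine ⟨γ, fun g hg => ?_⟩
  have hγ'g : ∀ y : Y, γ' (g • y) = γ' y := by
    intro y
    have hback : ∀ x : (g • y).orbit, g⁻¹ • (x : Ω) ∈ y.orbit := by
      intro x
      have h1 := hmove g⁻¹ (g • y) x
      rwa [inv_smul_smul] at h1
    let e : y.orbit ≃ (g • y).orbit :=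
      { toFun := fun x => ⟨g • (x : Ω), hmove g y x⟩
        invFun := fun x => ⟨g⁻¹ • (x : Ω), hback x⟩
        left_inv := fun x => Subtype.ext (inv_smul_smul g _)
        right_inv := fun x => Subtype.ext (smul_inv_smul g _) }
    have he : ∀ x : y.orbit, c (g • y) (e x) = c y x + (γ' y - γ' (g • y)) := by
      intro x
      have h1 := hγ (g • y) (e x)
      have h2 := hγ y x
      have h3 : γ (e x) = γ x := hg x
      rw [h3, h2] at h1
      rw [← add_sub_assoc, h1, add_sub_cancel_right]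
    have h1 := rot p hp N hN0 hN3 hNs (n y) (n (g • y)) (γ' y - γ' (g • y)) (by
      intro i
      rw [← hc1, ← hc1]
      apply Nat.card_congr
      apply e.subtypeEquiv
      intro x
      rw [he]
      exact add_left_inj _ |>.symm)
    exact (sub_eq_zero.mp h1).symm
  obtain ⟨k, hk⟩ := hγ' g hγ'g
  obtain ⟨h, hh⟩ : ∃ h, h = g ^ (2 ^ k) := ⟨_, rfl⟩
  rw [← hh] at hk
  have hpow : ∀ m : ℕ, ∀ ω : Ω, γ (g ^ m • ω) = γ ω := by
    intro m
    induction m with
    | zero => intro ω; rw [pow_zero, one_smul]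
    | succ m ih => intro ω; rw [pow_succ, mul_smul, ih, hg]
  have hhγ : ∀ ω : Ω, γ (h • ω) = γ ω := by rw [hh]; exact hpow _
  have hy : ∀ y : Y, ∃ m : ℕ, ∀ x : y.orbit, h ^ (2 ^ m) • (x : Ω) = x := by
    intro y
    have hin : ∀ x : y.orbit, h • (x : Ω) ∈ y.orbit := by
      intro x
      have h1 := hmove h y x
      rwa [hk] at h1
    have hin' : ∀ x : y.orbit, h⁻¹ • (x : Ω) ∈ y.orbit := by
      intro x
      have h1 := hmove h⁻¹ y x
      have h2 : h⁻¹ • y = y := by rw [inv_smul_eq_iff, hk]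
      rwa [h2] at h1
    let e : y.orbit ≃ y.orbit :=
      { toFun := fun x => ⟨h • (x : Ω), hin x⟩
        invFun := fun x => ⟨h⁻¹ • (x : Ω), hin' x⟩
        left_inv := fun x => Subtype.ext (inv_smul_smul h _)
        right_inv := fun x => Subtype.ext (smul_inv_smul h _) }
    obtain ⟨m, hm⟩ := hc2 y e (by
      intro v
      refine ⟨⟨h * v * h⁻¹, hAn.conj_mem _ v.2 h⟩, fun x => Subtype.ext ?_⟩
      change h • (v : P) • (x : Ω) = (h * v * h⁻¹) • h • (x : Ω)
      rw [smul_smul, smul_smul, inv_mul_cancel_right]) (by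
      intro x
      have h1 := hγ y (e x)
      have h2 := hγ y x
      have h3 : γ (e x) = γ x := hhγ x
      rw [h3, h2] at h1
      exact (add_right_cancel h1).symm)
    refine ⟨m, fun x => ?_⟩
    have h1 : ∀ j : ℕ, ∀ x : y.orbit, (e^[j] x : Ω) = h ^ j • (x : Ω) := by
      intro j
      induction j with
      | zero => intro x; rw [pow_zero, one_smul]; rfl
      | succ j ih =>
        intro x
        rw [Function.iterate_succ_apply', pow_succ', mul_smul, ← ih]
        rfl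
    rw [← h1, hm]
  choose m hm using hy
  have : Fintype Y := Fintype.ofFinite Y
  refine ⟨k + ∑ y : Y, m y, fun ω => ?_⟩
  rw [pow_add, pow_mul, ← hh]
  have h1 : 2 ^ (m (Quotient.mk'' ω)) ∣ 2 ^ (∑ y : Y, m y) :=
    pow_dvd_pow 2 (Finset.single_le_sum (fun y _ => Nat.zero_le (m y)) (Finset.mem_univ _))
  obtain ⟨r, hr⟩ := h1
  rw [hr, pow_mul]
  have h2 : ∀ r : ℕ, (h ^ 2 ^ m (Quotient.mk'' ω)) ^ r • ω = ω := by
    intro r
    induction r with
    | zero => rw [pow_zero, one_smul]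
    | succ r ih => rw [pow_succ, mul_smul, hm _ ⟨ω, hmem ω⟩, ih]
  exact h2 r

theorem main (N : ℕ) : ∀ (Q Ω : Type) [Group Q] [Finite Q] [Group.IsSolvable Q] [MulAction Q Ω]
    [Finite Ω], Nat.card Ω ≤ N → ∃ γ : Ω → ZMod 3, ∀ g : Q, (∀ ω : Ω, γ (g • ω) = γ ω) →
      ∃ k : ℕ, ∀ ω : Ω, g ^ (2 ^ k) • ω = ω := by
  induction N with
  | zero =>
    intro Q Ω _ _ _ _ _ hΩ
    have h1 : Nat.card Ω = 0 := by omega
    rcases Nat.card_eq_zero.mp h1 with h2 | h2
    · exact ⟨fun _ => 0, fun g _ => ⟨0, fun ω => (h2.false ω).elim⟩⟩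
    · exact absurd h2 (not_infinite_iff_finite.mpr inferInstance)
  | succ N ih =>
    intro Q Ω _ _ _ _ _ hΩ
    let φ : Q →* Equiv.Perm Ω := MulAction.toPermHom Q Ω
    let P := φ.range
    have hsol : Group.IsSolvable P := Group.isSolvable_of_surjective φ.rangeRestrict_surjective
    have hfin : Finite P := inferInstance
    by_cases hP : Nontrivial P
    · obtain ⟨γ, hγ⟩ := step P Ω (by
        intro Y _ _ hY
        exact ih P Y (by omega))
      refine ⟨γ, fun g hg => ?_⟩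
      obtain ⟨k, hk⟩ := hγ ⟨φ g, ⟨g, rfl⟩⟩ hg
      refine ⟨k, fun ω => ?_⟩
      have h1 := hk ω
      have h2 : (⟨φ g, ⟨g, rfl⟩⟩ : P) ^ (2 ^ k) • ω = φ (g ^ (2 ^ k)) ω := by
        rw [map_pow]
        rfl
      rw [h2] at h1
      exact h1
    · have hsub : Subsingleton P := not_nontrivial_iff_subsingleton.mp hP
      refine ⟨fun _ => 0, fun g _ => ⟨0, fun ω => ?_⟩⟩
      have h1 : (⟨φ g, ⟨g, rfl⟩⟩ : P) = 1 := Subsingleton.elim _ _
      have h2 : φ g = 1 := congrArg Subtype.val h1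
      have h3 : φ g ω = ω := by rw [h2]; rfl
      rw [pow_zero, pow_one]
      exact h3

/-- The subgroup of `G` of all elements preserving the colouring `γ`. -/
def colourPreserving {Ω : Type} (G : Subgroup (Equiv.Perm Ω)) (γ : Ω → Fin 3) :
    Subgroup (Equiv.Perm Ω) where
  carrier := {g | g ∈ G ∧ ∀ ω, γ (g ω) = γ ω}
  mul_mem' := by
    rintro g h ⟨hg, hg'⟩ ⟨hh, hh'⟩
    exact ⟨G.mul_mem hg hh, fun ω => by rw [Equiv.Perm.mul_apply, hg', hh']⟩
  one_mem' := ⟨G.one_mem, fun ω => rfl⟩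
  inv_mem' := by
    rintro g ⟨hg, hg'⟩
    exact ⟨G.inv_mem hg, fun ω => by
      rw [← hg' (g⁻¹ ω), ← Equiv.Perm.mul_apply, mul_inv_cancel, Equiv.Perm.one_apply]⟩

/-- Every finite solvable permutation group has a 3-colouring whose colour-preserving subgroup
is a 2-group. -/
theorem result : ∀ (Ω : Type) [Finite Ω] (G : Subgroup (Equiv.Perm Ω)), Group.IsSolvable G →
    ∃ γ : Ω → Fin 3, ∃ m : ℕ, Nat.card (colourPreserving G γ) = 2 ^ m := by
  intro Ω _ G hG
  obtain ⟨γ, hγ⟩ := main (Nat.card Ω) G Ω le_rfl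
  refine ⟨γ, ?_⟩
  have h2 : Fact (Nat.Prime 2) := ⟨Nat.prime_two⟩
  rw [← IsPGroup.iff_card]
  intro g
  obtain ⟨g, hg, hg'⟩ := g
  obtain ⟨k, hk⟩ := hγ ⟨g, hg⟩ hg'
  refine ⟨k, Subtype.ext ?_⟩
  apply Equiv.ext
  intro ω
  exact hk ω

end Pool.Agent.Results.MP_2fb0b3_al.ThreeColouring
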